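import Pool.Agent.Helper53.PT.GoalsA

/-!
# MP_705522_gt, `q ∈ (2,4)`: packet PT-LIP (dependence on `θ` through the convex order)
-/

namespace Pool.Agent.Helper9.PT

open MeasureTheory Set Filter Topology
open Pool.Agent.Helper53.PT

theorem int_of_growth {μ : Measure ℝ} (hi : ∀ k : ℕ, Integrable (fun y : ℝ => y ^ k) μ) (H : ℝ → ℝ)
    (hc : ContinuousOn H (Ici 0))
    (hg : ∃ (C : ℝ) (N : ℕ), ∀ s, 0 ≤ s → |H s| ≤ C * (1 + s) ^ N) :
    Integrable (fun y => H (y ^ 2)) μ := by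
  obtain ⟨C, N, hg⟩ := hg
  have h1 : Integrable (fun y : ℝ => C * (1 + y ^ 2) ^ N) μ := by
    apply Integrable.const_mul
    have : (fun y : ℝ => (1 + y ^ 2) ^ N) =
        fun y => ∑ m ∈ Finset.range (N + 1), (N.choose m : ℝ) * y ^ (2 * (N - m)) := by
      funext y
      rw [add_pow]
      apply Finset.sum_congr rfl
      intro m _
      rw [← pow_mul]
      ring
    rw [this]
    apply integrable_finsetSum
    intro m _
    exact (hi _).const_mul _
  refine h1.mono' ?_ ?_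
  · have : Continuous (fun y : ℝ => H (y ^ 2)) :=
      hc.comp_continuous (by fun_prop) (fun y => sq_nonneg y)
    exact this.aestronglyMeasurable
  · exact Eventually.of_forall fun y => by
      rw [Real.norm_eq_abs]; exact hg _ (sq_nonneg y)

theorem growth_add {h Φ : ℝ → ℝ}
    (hg : ∃ (C : ℝ) (N : ℕ), ∀ s, 0 ≤ s → |h s| ≤ C * (1 + s) ^ N)
    (Φg : ∃ (C : ℝ) (N : ℕ), ∀ s, 0 ≤ s → |Φ s| ≤ C * (1 + s) ^ N) :
    (∃ (C : ℝ) (N : ℕ), ∀ s, 0 ≤ s → |Φ s + h s| ≤ C * (1 + s) ^ N) ∧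
    (∃ (C : ℝ) (N : ℕ), ∀ s, 0 ≤ s → |Φ s - h s| ≤ C * (1 + s) ^ N) := by
  obtain ⟨C, N, h1⟩ := hg
  obtain ⟨C', N', h2⟩ := Φg
  have hC : 0 ≤ C := by
    have := (abs_nonneg _).trans (h1 0 le_rfl)
    simpa using this
  have hC' : 0 ≤ C' := by
    have := (abs_nonneg _).trans (h2 0 le_rfl)
    simpa using this
  have key : ∀ s : ℝ, 0 ≤ s → |Φ s| + |h s| ≤ (C + C') * (1 + s) ^ (max N N') := by
    intro s hs
    have e1 : (1 + s) ^ N ≤ (1 + s) ^ (max N N') :=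
      pow_le_pow_right₀ (by linarith) (le_max_left _ _)
    have e2 : (1 + s) ^ N' ≤ (1 + s) ^ (max N N') :=
      pow_le_pow_right₀ (by linarith) (le_max_right _ _)
    have := h1 s hs
    have := h2 s hs
    have := mul_le_mul_of_nonneg_left e1 hC
    have := mul_le_mul_of_nonneg_left e2 hC'
    linarith
  constructor
  · refine ⟨C + C', max N N', fun s hs => ?_⟩
    exact (abs_add_le _ _).trans (key s hs)
  · refine ⟨C + C', max N N', fun s hs => ?_⟩
    exact (abs_sub _ _).trans (key s hs)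

/-- the comparison -/
theorem cmp {θ θ' : ℝ}
    (hi : ∀ k : ℕ, Integrable (fun y : ℝ => y ^ k) (nu θ))
    (hi' : ∀ k : ℕ, Integrable (fun y : ℝ => y ^ k) (nu θ'))
    (hCX : ∀ H : ℝ → ℝ, ConvexOn ℝ (Ici 0) H → ContinuousOn H (Ici 0) →
      (∃ (C : ℝ) (N : ℕ), ∀ s, 0 ≤ s → |H s| ≤ C * (1 + s) ^ N) →
      ∫ y, H (y ^ 2) ∂(nu θ) ≤ ∫ y, H (y ^ 2) ∂(nu θ'))
    (h h' h'' Φ Φ' Φ'' : ℝ → ℝ) (hc : ContinuousOn h (Ici 0)) (Φc : ContinuousOn Φ (Ici 0))
    (hd : ∀ s, 0 < s → HasDerivAt h (h' s) s) (hd2 : ∀ s, 0 < s → HasDerivAt h' (h'' s) s)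
    (Φd : ∀ s, 0 < s → HasDerivAt Φ (Φ' s) s) (Φd2 : ∀ s, 0 < s → HasDerivAt Φ' (Φ'' s) s)
    (hb : ∀ s, 0 < s → |h'' s| ≤ Φ'' s)
    (hg : ∃ (C : ℝ) (N : ℕ), ∀ s, 0 ≤ s → |h s| ≤ C * (1 + s) ^ N)
    (Φg : ∃ (C : ℝ) (N : ℕ), ∀ s, 0 ≤ s → |Φ s| ≤ C * (1 + s) ^ N) :
    |∫ y, h (y ^ 2) ∂(nu θ') - ∫ y, h (y ^ 2) ∂(nu θ)| ≤
      ∫ y, Φ (y ^ 2) ∂(nu θ') - ∫ y, Φ (y ^ 2) ∂(nu θ) := by
  have i1 := int_of_growth hi h hc hg
  have i2 := int_of_growth hi' h hc hg
  have i3 := int_of_growth hi Φ Φc Φg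
  have i4 := int_of_growth hi' Φ Φc Φg
  obtain ⟨g1, g2⟩ := growth_add hg Φg
  have c1 : ConvexOn ℝ (Ici 0) (fun s => Φ s + h s) := by
    apply convexOn_of_hasDerivWithinAt2_nonneg (f' := fun s => Φ' s + h' s)
      (f'' := fun s => Φ'' s + h'' s) (convex_Ici 0) (Φc.add hc)
    · intro x hx
      rw [interior_Ici] at hx ⊢
      exact ((Φd x hx).add (hd x hx)).hasDerivWithinAt
    · intro x hx
      rw [interior_Ici] at hx ⊢
      exact ((Φd2 x hx).add (hd2 x hx)).hasDerivWithinAt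
    · intro x hx
      rw [interior_Ici] at hx
      have := abs_le.1 (hb x hx)
      linarith [this.1]
  have c2 : ConvexOn ℝ (Ici 0) (fun s => Φ s - h s) := by
    apply convexOn_of_hasDerivWithinAt2_nonneg (f' := fun s => Φ' s - h' s)
      (f'' := fun s => Φ'' s - h'' s) (convex_Ici 0) (Φc.sub hc)
    · intro x hx
      rw [interior_Ici] at hx ⊢
      exact ((Φd x hx).sub (hd x hx)).hasDerivWithinAt
    · intro x hx
      rw [interior_Ici] at hx ⊢
      exact ((Φd2 x hx).sub (hd2 x hx)).hasDerivWithinAt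
    · intro x hx
      rw [interior_Ici] at hx
      have := abs_le.1 (hb x hx)
      linarith [this.2]
  have e1 := hCX _ c1 (Φc.add hc) g1
  have e2 := hCX _ c2 (Φc.sub hc) g2
  rw [integral_add i3 i1, integral_add i4 i2] at e1
  rw [integral_sub i3 i1, integral_sub i4 i2] at e2
  rw [abs_le]
  constructor <;> linarith

/-! ## positive kernels -/

theorem ker_bound (Q A q : ℝ → ℝ) (w : ℝ) (hQ : ∀ u, HasDerivAt Q (q u) u)
    (hA : ∀ u, HasDerivAt A (q u * Real.cos (u * w)) u) (hq : ∀ u, 0 ≤ u → u ≤ 1 → 0 ≤ q u) :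
    |A 1 - A 0| ≤ Q 1 - Q 0 := by
  have m1 : MonotoneOn (fun u => Q u - A u) (Icc 0 1) := by
    apply monotoneOn_of_deriv_nonneg (convex_Icc 0 1)
    · exact fun u _ => ((hQ u).sub (hA u)).continuousAt.continuousWithinAt
    · exact fun u _ => ((hQ u).sub (hA u)).differentiableAt.differentiableWithinAt
    · intro u hu
      rw [interior_Icc] at hu
      have hd : deriv (fun u => Q u - A u) u = q u - q u * Real.cos (u * w) :=
        ((hQ u).sub (hA u)).deriv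
      rw [hd]
      nlinarith [hq u hu.1.le hu.2.le, Real.cos_le_one (u * w)]
  have m2 : MonotoneOn (fun u => Q u + A u) (Icc 0 1) := by
    apply monotoneOn_of_deriv_nonneg (convex_Icc 0 1)
    · exact fun u _ => ((hQ u).add (hA u)).continuousAt.continuousWithinAt
    · exact fun u _ => ((hQ u).add (hA u)).differentiableAt.differentiableWithinAt
    · intro u hu
      rw [interior_Icc] at hu
      have hd : deriv (fun u => Q u + A u) u = q u + q u * Real.cos (u * w) :=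
        ((hQ u).add (hA u)).deriv
      rw [hd]
      nlinarith [hq u hu.1.le hu.2.le, Real.neg_one_le_cos (u * w)]
  have e1 := m1 (left_mem_Icc.2 zero_le_one) (right_mem_Icc.2 zero_le_one) zero_le_one
  have e2 := m2 (left_mem_Icc.2 zero_le_one) (right_mem_Icc.2 zero_le_one) zero_le_one
  simp only at e1 e2
  rw [abs_le]
  constructor <;> linarith

theorem B5 (w : ℝ) (hw : 0 < w) :
    |2 * (Real.sin w / w) + 2 * ((w * Real.cos w - Real.sin w) / (2 * w ^ 3))| ≤ 5 / 3 := by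
  have hsin : ∀ u : ℝ, HasDerivAt (fun u => Real.sin (u * w)) (Real.cos (u * w) * w) u := by
    intro u
    have := ((hasDerivAt_id u).mul_const w).sin
    simpa using this
  have hcos : ∀ u : ℝ, HasDerivAt (fun u => Real.cos (u * w)) (-Real.sin (u * w) * w) u := by
    intro u
    have := ((hasDerivAt_id u).mul_const w).cos
    simpa using this
  have hw0 : w ≠ 0 := hw.ne'
  have h := ker_bound (fun u => 3 / 2 * u + u ^ 3 / 6)
    (fun u => (3 / 2 + u ^ 2 / 2) * Real.sin (u * w) / w + u * Real.cos (u * w) / w ^ 2 -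
      Real.sin (u * w) / w ^ 3) (fun u => 3 / 2 + u ^ 2 / 2) w ?_ ?_ ?_
  · have e : 2 * (Real.sin w / w) + 2 * ((w * Real.cos w - Real.sin w) / (2 * w ^ 3)) =
        ((3 / 2 + (1:ℝ) ^ 2 / 2) * Real.sin (1 * w) / w + 1 * Real.cos (1 * w) / w ^ 2 -
      Real.sin (1 * w) / w ^ 3) - ((3 / 2 + (0:ℝ) ^ 2 / 2) * Real.sin (0 * w) / w +
        0 * Real.cos (0 * w) / w ^ 2 - Real.sin (0 * w) / w ^ 3) := by
      rw [one_mul, zero_mul, Real.sin_zero]
      field_simp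
      ring
    rw [e]
    refine h.trans (le_of_eq ?_)
    norm_num
  · intro u
    have h1 : HasDerivAt (fun u : ℝ => 3 / 2 * u + u ^ 3 / 6) (3 / 2 * 1 + (3 * u ^ 2 * 1) / 6) u := by
      exact ((hasDerivAt_id u).const_mul (3 / 2)).add (((hasDerivAt_id u).pow 3).div_const 6)
    exact h1.congr_deriv (by ring)
  · intro u
    have h0 : HasDerivAt (fun u : ℝ => 3 / 2 + u ^ 2 / 2) ((2 * u ^ 1 * 1) / 2) u := by
      exact (((hasDerivAt_id u).pow 2).div_const 2).const_add _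
    have h1 := ((h0.mul (hsin u)).div_const w)
    have h2 := (((hasDerivAt_id u).mul (hcos u)).div_const (w ^ 2))
    have h3 := (hsin u).div_const (w ^ 3)
    have h4 := (h1.add h2).sub h3
    refine h4.congr_deriv ?_
    simp only [id]
    field_simp
    ring
  · intro u _ _
    positivity

theorem B6 (w : ℝ) (hw : 0 < w) :
    |Real.sin w / w / 16 - (w * Real.cos w - Real.sin w) / (2 * w ^ 3) / 4 -
      (-(Real.sin w) / (4 * w ^ 3) - 3 / 4 * Real.cos w / w ^ 4 + 3 / 4 * Real.sin w / w ^ 5) / 4| ≤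
      1 / 10 := by
  have hsin : ∀ u : ℝ, HasDerivAt (fun u => Real.sin (u * w)) (Real.cos (u * w) * w) u := by
    intro u
    have := ((hasDerivAt_id u).mul_const w).sin
    simpa using this
  have hcos : ∀ u : ℝ, HasDerivAt (fun u => Real.cos (u * w)) (-Real.sin (u * w) * w) u := by
    intro u
    have := ((hasDerivAt_id u).mul_const w).cos
    simpa using this
  have hw0 : w ≠ 0 := hw.ne'
  have h := ker_bound (fun u => (15 * u - 2 * u ^ 3 - u ^ 5 / 5) / 128)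
    (fun u => ((15 - 6 * u ^ 2 - u ^ 4) * Real.sin (u * w) / w +
      (-12 * u - 4 * u ^ 3) * Real.cos (u * w) / w ^ 2 -
      (-12 - 12 * u ^ 2) * Real.sin (u * w) / w ^ 3 - (-24 * u) * Real.cos (u * w) / w ^ 4 +
      (-24) * Real.sin (u * w) / w ^ 5) / 128) (fun u => (15 - 6 * u ^ 2 - u ^ 4) / 128) w ?_ ?_ ?_
  · simp only [one_mul, zero_mul, Real.sin_zero, Real.cos_zero] at h
    refine le_trans (le_of_eq ?_) (h.trans (le_of_eq ?_))
    · congr 1
      field_simp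
      ring
    · norm_num
  · intro u
    have h1 := ((((hasDerivAt_id u).const_mul 15).sub (((hasDerivAt_id u).pow 3).const_mul 2)).sub
      (((hasDerivAt_id u).pow 5).div_const 5)).div_const 128
    refine h1.congr_deriv ?_
    simp only [id]
    ring
  · intro u
    have p0 : HasDerivAt (fun u : ℝ => 15 - 6 * u ^ 2 - u ^ 4) (-12 * u - 4 * u ^ 3) u := by
      have h1 := ((((hasDerivAt_id u).pow 2).const_mul 6).const_sub 15).sub ((hasDerivAt_id u).pow 4)
      refine h1.congr_deriv ?_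
      simp only [id]
      ring
    have p1 : HasDerivAt (fun u : ℝ => -12 * u - 4 * u ^ 3) (-12 - 12 * u ^ 2) u := by
      have h1 := ((hasDerivAt_id u).const_mul (-12)).sub (((hasDerivAt_id u).pow 3).const_mul 4)
      refine h1.congr_deriv ?_
      simp only [id]
      ring
    have p2 : HasDerivAt (fun u : ℝ => -12 - 12 * u ^ 2) (-24 * u) u := by
      have h1 := ((((hasDerivAt_id u).pow 2).const_mul 12).const_sub (-12))
      refine h1.congr_deriv ?_
      simp only [id]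
      ring
    have p3 : HasDerivAt (fun u : ℝ => -24 * u) (-24) u := by
      have h1 := ((hasDerivAt_id u).const_mul (-24))
      refine h1.congr_deriv ?_
      simp
    have h0 := (p0.mul (hsin u)).div_const w
    have h1 := (p1.mul (hcos u)).div_const (w ^ 2)
    have h2 := (p2.mul (hsin u)).div_const (w ^ 3)
    have h3 := (p3.mul (hcos u)).div_const (w ^ 4)
    have h4 := ((hsin u).const_mul (-24)).div_const (w ^ 5)
    have h5 := ((((h0.add h1).sub h2).sub h3).add h4).div_const 128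
    refine h5.congr_deriv ?_
    field_simp
    ring
  · intro u h0 h1
    have : u ^ 2 ≤ 1 := by nlinarith
    have : u ^ 4 ≤ 1 := by nlinarith [sq_nonneg (u ^ 2)]
    have : 0 ≤ 15 - 6 * u ^ 2 - u ^ 4 := by linarith
    positivity

theorem poly_ineq (u : ℝ) (h0 : 0 ≤ u) (h1 : u ≤ 6.25) :
    (u + 4.3264) * (1 / 6 - u / 60 + u ^ 2 / 1680 - u ^ 3 / 90720 + u ^ 4 / 7983360) ≤ 0.91104 := by
  have h := sq_nonneg (u - 4.33)
  have e1 := mul_nonneg h (sub_nonneg.2 h1)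
  have e2 := mul_nonneg h (sq_nonneg u)
  have e3 : 0 ≤ (u - 4.33) ^ 2 * (6.25 ^ 3 - u ^ 3) :=
    mul_nonneg h (sub_nonneg.2 (pow_le_pow_left₀ h0 h1 3))
  nlinarith [h, e1, e2, e3]

theorem B2 (hK2 : ∀ w, HasSum (fun j : ℕ => (-1) ^ (j + 1) * ((j : ℝ) + 1) /
      ((2 * j + 3).factorial : ℝ) * w ^ (2 * j)) (k2 w))
    (hf : ∀ w, w ≠ 0 → k2 w = (w * Real.cos w - Real.sin w) / (2 * w ^ 3)) (w : ℝ) (hw : 0 < w) :
    w * |k2 w| ≤ 0.219 := by
  rcases le_or_gt w 2.5 with h | h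
  · set a : ℕ → ℝ := fun j => ((j : ℝ) + 1) / ((2 * j + 3).factorial : ℝ) * w ^ (2 * j) with ha
    have hw2 : w ^ 2 ≤ 6.25 := by nlinarith
    have hant : Antitone a := by
      apply antitone_nat_of_succ_le
      intro j
      simp only [ha]
      have hfac : ((2 * (j + 1) + 3).factorial : ℝ) =
          (2 * j + 5) * (2 * j + 4) * ((2 * j + 3).factorial : ℝ) := by
        have : 2 * (j + 1) + 3 = (2 * j + 3) + 1 + 1 := by ring
        rw [this, Nat.factorial_succ, Nat.factorial_succ]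
        push_cast
        ring
      rw [hfac]
      have hF : (0:ℝ) < ((2 * j + 3).factorial : ℝ) := by positivity
      have hj : (0:ℝ) ≤ j := Nat.cast_nonneg j
      have e : w ^ (2 * (j + 1)) = w ^ (2 * j) * w ^ 2 := by ring
      rw [e]
      have hp : 0 ≤ w ^ (2 * j) := by positivity
      have key : (((j + 1 : ℕ) : ℝ) + 1) / ((2 * j + 5) * (2 * j + 4) * ((2 * j + 3).factorial : ℝ)) *
          w ^ 2 ≤ ((j : ℝ) + 1) / ((2 * j + 3).factorial : ℝ) := by
        rw [div_mul_eq_mul_div, div_le_div_iff₀ (by positivity) hF]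
        push_cast
        have h1 : ((j : ℝ) + 1 + 1) * w ^ 2 ≤ ((j : ℝ) + 1) * ((2 * j + 5) * (2 * j + 4)) := by
          nlinarith [mul_nonneg hj hj, mul_nonneg hj (sub_nonneg.2 hw2), mul_nonneg (mul_nonneg hj hj) hj]
        nlinarith [mul_le_mul_of_nonneg_right h1 hF.le]
      calc _ = ((((j + 1 : ℕ) : ℝ) + 1) / ((2 * j + 5) * (2 * j + 4) *
            ((2 * j + 3).factorial : ℝ)) * w ^ 2) * w ^ (2 * j) := by ring
        _ ≤ _ := mul_le_mul_of_nonneg_right key hp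
    have hs : HasSum (fun j => (-1) ^ j * a j) (-k2 w) := by
      have h1 := (hK2 w).neg
      have h2 : (fun j : ℕ => (-1) ^ j * a j) = fun j : ℕ => -((-1) ^ (j + 1) * ((j : ℝ) + 1) /
          ((2 * j + 3).factorial : ℝ) * w ^ (2 * j)) := by
        funext j
        simp only [ha]
        ring
      rw [h2]
      exact h1
    have ht := hs.tendsto_sum_nat
    have up := hant.tendsto_le_alternating_series ht 2
    have lo := hant.alternating_series_le_tendsto ht 1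
    simp only [ha, Finset.sum_range_succ, Finset.sum_range_zero] at up lo
    norm_num [Nat.factorial] at up lo
    have up' : -k2 w ≤ 1 / 6 - w ^ 2 / 60 + (w ^ 2) ^ 2 / 1680 - (w ^ 2) ^ 3 / 90720 +
        (w ^ 2) ^ 4 / 7983360 := by
      refine le_trans up (le_of_eq ?_)
      ring
    have lo' : 0 ≤ -k2 w := by
      nlinarith [sq_nonneg w]
    rw [abs_of_nonpos (by linarith)]
    have hp := poly_ineq (w ^ 2) (by positivity) hw2
    have hwle : w ≤ (w ^ 2 + 4.3264) / 4.16 := by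
      rw [le_div_iff₀ (by norm_num)]
      nlinarith [sq_nonneg (w - 2.08)]
    have h3 : w * -k2 w ≤ (w ^ 2 + 4.3264) / 4.16 * -k2 w := mul_le_mul_of_nonneg_right hwle lo'
    have h4 : (w ^ 2 + 4.3264) / 4.16 * -k2 w ≤ (w ^ 2 + 4.3264) / 4.16 *
        (1 / 6 - w ^ 2 / 60 + (w ^ 2) ^ 2 / 1680 - (w ^ 2) ^ 3 / 90720 +
        (w ^ 2) ^ 4 / 7983360) := mul_le_mul_of_nonneg_left up' (by positivity)
    have h5 : (w ^ 2 + 4.3264) / 4.16 *
        (1 / 6 - w ^ 2 / 60 + (w ^ 2) ^ 2 / 1680 - (w ^ 2) ^ 3 / 90720 +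
        (w ^ 2) ^ 4 / 7983360) ≤ 0.219 := by
      rw [div_mul_eq_mul_div, div_le_iff₀ (by norm_num)]
      refine hp.trans (le_of_eq (by norm_num))
    exact h3.trans (h4.trans h5)
  · rw [hf w hw.ne', abs_div, abs_of_pos (show (0:ℝ) < 2 * w ^ 3 by positivity)]
    have h1 : (w * Real.cos w - Real.sin w) ^ 2 ≤ 1 + w ^ 2 := by
      nlinarith [sq_nonneg (w * Real.sin w + Real.cos w), Real.sin_sq_add_cos_sq w]
    have h2 : 1 + w ^ 2 ≤ (0.438 * w ^ 2) ^ 2 := by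
      have : (6.25:ℝ) ≤ w ^ 2 := by nlinarith
      nlinarith
    have h3 : |w * Real.cos w - Real.sin w| ≤ 0.438 * w ^ 2 :=
      abs_le_of_sq_le_sq (h1.trans h2) (by positivity)
    rw [← mul_div_assoc, div_le_iff₀ (by positivity)]
    nlinarith [mul_le_mul_of_nonneg_left h3 hw.le]

/-- chain rule for `s ↦ g (x s)` -/
theorem chain {g g' : ℝ → ℝ} (hg : ∀ v, 0 < v → HasDerivAt g (g' v) v) {x : ℝ} (hx : 0 < x)
    (s : ℝ) (hs : 0 < s) : HasDerivAt (fun s => g (x * s)) (g' (x * s) * x) s := by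
  have h1 : HasDerivAt (fun s : ℝ => x * s) x s := by
    simpa using (hasDerivAt_id s).const_mul x
  exact (hg (x * s) (mul_pos hx hs)).comp s h1

theorem ints {θ x : ℝ} (hx : 0 ≤ x) (hpos : ∀ᵐ y ∂(nu θ), 0 < y) :
    (∫ y, Real.cos (√(x * y ^ 2)) ∂(nu θ) = ∫ y, Real.cos (√x * y) ∂(nu θ)) ∧
    (∫ y, y ^ 2 * Real.sinc (√(x * y ^ 2)) ∂(nu θ) = ∫ y, y ^ 2 * Real.sinc (√x * y) ∂(nu θ)) ∧
    (∫ y, (y ^ 2) ^ 2 * k2 (√(x * y ^ 2)) ∂(nu θ) = ∫ y, y ^ 4 * k2 (√x * y) ∂(nu θ)) ∧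
    (∫ y, (y ^ 2) ^ 3 * k3 (√(x * y ^ 2)) ∂(nu θ) = ∫ y, y ^ 6 * k3 (√x * y) ∂(nu θ)) ∧
    (∫ y, (y ^ 2) * √(y ^ 2) ∂(nu θ) = ∫ y, y ^ 3 ∂(nu θ)) := by
  have sq : ∀ y : ℝ, 0 < y → √(x * y ^ 2) = √x * y := by
    intro y hy
    rw [Real.sqrt_mul hx, Real.sqrt_sq hy.le]
  refine ⟨?_, ?_, ?_, ?_, ?_⟩ <;> apply integral_congr_ae <;> filter_upwards [hpos] with y hy
  · rw [sq y hy]
  · rw [sq y hy]
  · rw [sq y hy]; ring
  · rw [sq y hy]; ring
  · rw [Real.sqrt_sq hy.le]; ring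

theorem sqrt_le_one_add (s : ℝ) (hs : 0 ≤ s) : √s ≤ 1 + s := by
  nlinarith [Real.sq_sqrt hs, Real.sqrt_nonneg s, sq_nonneg (√s - 1)]

theorem d32 (C s : ℝ) (hs : 0 < s) :
    HasDerivAt (fun s => C * (s * √s)) (C * (3 / 2 * √s)) s ∧
    HasDerivAt (fun s => C * (3 / 2 * √s)) (C * (3 / (4 * √s))) s := by
  have hw : 0 < √s := Real.sqrt_pos.2 hs
  have h1 := Real.hasDerivAt_sqrt hs.ne'
  constructor
  · refine (((hasDerivAt_id s).mul h1).const_mul C).congr_deriv ?_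
    simp only [id, one_mul]
    have : s = √s * √s := (Real.mul_self_sqrt hs.le).symm
    have h2 : s * (1 / (2 * √s)) = √s / 2 := by
      field_simp
      rw [Real.sq_sqrt hs.le]
    rw [h2]; ring
  · refine ((h1.const_mul (3 / 2)).const_mul C).congr_deriv ?_
    field_simp
    ring

theorem gLIP : GLIP := by
  intro hK hL hCX θ θ' hθ hθθ' hθ' x hx
  obtain ⟨hK2, -, -, hKb, hKf, hKd, hKc2, hKc3, hKc4⟩ := hK
  obtain ⟨hP, hpos, hi, hmo, hm3, hf⟩ := hL θ hθ (hθθ'.trans_lt hθ')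
  obtain ⟨hP', hpos', hi', hmo', hm3', hf'⟩ := hL θ' (hθ.trans_le hθθ') hθ'
  obtain ⟨f0e, f1e, f2e, f3e⟩ := hf x hx
  obtain ⟨f0e', f1e', f2e', f3e'⟩ := hf' x hx
  have hCX := hCX θ θ' hθ hθθ' hθ'
  -- functions of `v`
  set c : ℝ → ℝ := fun v => Real.cos (√v) with hc
  set S : ℝ → ℝ := fun v => Real.sinc (√v) with hS
  set κ2 : ℝ → ℝ := fun v => k2 (√v) with hκ2
  set κ3 : ℝ → ℝ := fun v => k3 (√v) with hκ3
  set κ4 : ℝ → ℝ := fun v => k4 (√v) with hκ4
  have cc : Continuous c := Real.continuous_cos.comp Real.continuous_sqrt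
  have cS : Continuous S := Real.continuous_sinc.comp Real.continuous_sqrt
  have cκ2 : Continuous κ2 := hKc2.comp Real.continuous_sqrt
  have cκ3 : Continuous κ3 := hKc3.comp Real.continuous_sqrt
  have dc : ∀ v, 0 < v → HasDerivAt c (-(S v) / 2) v := by
    intro v hv
    have h1 := (Real.hasDerivAt_sqrt hv.ne').cos
    refine h1.congr_deriv ?_
    have : √v ≠ 0 := (Real.sqrt_pos.2 hv).ne'
    simp only [hS]
    rw [Real.sinc_of_ne_zero this]
    field_simp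
  have dS : ∀ v, 0 < v → HasDerivAt S (κ2 v) v := fun v hv => (hKd v hv).1
  have dκ2 : ∀ v, 0 < v → HasDerivAt κ2 (κ3 v) v := fun v hv => (hKd v hv).2.1
  have dκ3 : ∀ v, 0 < v → HasDerivAt κ3 (κ4 v) v := fun v hv => (hKd v hv).2.2
  have Se : ∀ v, 0 < v → S v = Real.sin (√v) / √v := by
    intro v hv
    simp only [hS]
    rw [Real.sinc_of_ne_zero (Real.sqrt_pos.2 hv).ne']
  have κ2e : ∀ v, 0 < v → κ2 v = (√v * Real.cos (√v) - Real.sin (√v)) / (2 * √v ^ 3) := by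
    intro v hv
    exact hKf _ (Real.sqrt_pos.2 hv).ne'
  -- relations
  have r1 : ∀ v, 0 < v → 2 * v * κ2 v = c v - S v := by
    intro v hv
    rw [κ2e v hv, Se v hv]
    have h0 : 0 < √v := Real.sqrt_pos.2 hv
    have h1 : v = √v ^ 2 := (Real.sq_sqrt hv.le).symm
    simp only [hc]
    set w := √v with hw
    rw [h1]
    field_simp
  have r2 : ∀ v, 0 < v → v * κ3 v = -(S v) / 4 - 3 / 2 * κ2 v := by
    intro v hv
    have h1 : HasDerivAt (fun v => 2 * v * κ2 v) (2 * κ2 v + 2 * v * κ3 v) v := by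
      have := ((hasDerivAt_id v).const_mul 2).mul (dκ2 v hv)
      refine this.congr_deriv ?_
      simp
    have h2 : HasDerivAt (fun v => c v - S v) (-(S v) / 2 - κ2 v) v := (dc v hv).sub (dS v hv)
    have h3 : (fun v => 2 * v * κ2 v) =ᶠ[𝓝 v] fun v => c v - S v := by
      filter_upwards [lt_mem_nhds hv] with u hu
      exact r1 u hu
    have h4 := (h2.congr_of_eventuallyEq h3).unique h1
    linarith
  have r3 : ∀ v, 0 < v → v * κ4 v = -(κ2 v) / 4 - 5 / 2 * κ3 v := by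
    intro v hv
    have h1 : HasDerivAt (fun v => v * κ3 v) (κ3 v + v * κ4 v) v := by
      have := (hasDerivAt_id v).mul (dκ3 v hv)
      refine this.congr_deriv ?_
      simp
    have h2 : HasDerivAt (fun v => -(S v) / 4 - 3 / 2 * κ2 v) (-(κ2 v) / 4 - 3 / 2 * κ3 v) v :=
      ((dS v hv).neg.div_const 4).sub ((dκ2 v hv).const_mul (3 / 2))
    have h3 : (fun v => v * κ3 v) =ᶠ[𝓝 v] fun v => -(S v) / 4 - 3 / 2 * κ2 v := by
      filter_upwards [lt_mem_nhds hv] with u hu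
      exact r2 u hu
    have h4 := (h2.congr_of_eventuallyEq h3).unique h1
    linarith
  -- the case `x = 0`
  have q1 : ∫ y, y ^ 2 ∂(nu θ) = ∫ y, y ^ 2 ∂(nu θ') := by
    apply le_antisymm
    · exact hCX (fun s => s) (convexOn_id (convex_Ici 0)) continuousOn_id
        ⟨1, 1, fun s hs => by rw [abs_of_nonneg hs]; linarith⟩
    · have := hCX (fun s => -s) ((concaveOn_id (convex_Ici 0)).neg) continuousOn_id.neg
        ⟨1, 1, fun s hs => by rw [abs_neg, abs_of_nonneg hs]; linarith⟩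
      rw [integral_neg, integral_neg] at this
      linarith
  have q2 : mo θ 2 ≤ mo θ' 2 := by
    rw [← hmo 2, ← hmo' 2]
    have := hCX (fun s => s ^ 2) (convexOn_pow 2) (by fun_prop)
      ⟨1, 2, fun s hs => by rw [abs_of_nonneg (by positivity)]; nlinarith⟩
    simpa [← pow_mul] using this
  have q3 : mo θ 3 ≤ mo θ' 3 := by
    rw [← hmo 3, ← hmo' 3]
    have := hCX (fun s => s ^ 3) (convexOn_pow 3) (by fun_prop)
      ⟨1, 3, fun s hs => by
        rw [abs_of_nonneg (by positivity), one_mul]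
        exact pow_le_pow_left₀ hs (by linarith) 3⟩
    simpa [← pow_mul] using this
  rcases hx.eq_or_lt with h0 | hx0
  · subst h0
    have e1 : f1 θ' 0 - f1 θ 0 = 0 := by
      rw [f1e, f1e']
      simp only [Real.sqrt_zero, zero_mul, Real.sinc_zero, mul_one]
      rw [q1]; ring
    have e0 : f0 θ' 0 - f0 θ 0 = 0 := by
      rw [f0e, f0e']
      simp only [Real.sqrt_zero, zero_mul, Real.cos_zero]
      haveI := hP
      haveI := hP'
      simp
    have e2 : f2 θ' 0 - f2 θ 0 = (mo θ' 2 - mo θ 2) * k2 0 := by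
      rw [f2e, f2e']
      simp only [Real.sqrt_zero, zero_mul]
      rw [integral_mul_const, integral_mul_const, ← hmo 2, ← hmo' 2]
      ring
    have e3 : f3 θ' 0 - f3 θ 0 = (mo θ' 3 - mo θ 3) * k3 0 := by
      rw [f3e, f3e']
      simp only [Real.sqrt_zero, zero_mul]
      rw [integral_mul_const, integral_mul_const, ← hmo 3, ← hmo' 3]
      ring
    rw [e0, e1, e2, e3]
    obtain ⟨b2, b3, -⟩ := hKb 0
    refine ⟨by simp, by simp, by simp, by simp, ?_, ?_⟩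
    · rw [abs_mul, abs_of_nonneg (sub_nonneg.2 q2)]
      nlinarith [mul_le_mul_of_nonneg_left b2 (sub_nonneg.2 q2)]
    · rw [abs_mul, abs_of_nonneg (sub_nonneg.2 q3)]
      nlinarith [mul_le_mul_of_nonneg_left b3 (sub_nonneg.2 q3)]
  obtain ⟨j0, j1, j2, j3, j4⟩ := ints hx hpos
  obtain ⟨j0', j1', j2', j3', j4'⟩ := ints hx hpos'
  have cx : Continuous (fun s : ℝ => x * s) := by fun_prop
  -- items 1 and 2
  have hd1 : ∀ s, 0 < s → HasDerivAt (fun s => c (x * s)) (-(x / 2) * S (x * s)) s := by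
    intro s hs
    exact (chain dc hx0 s hs).congr_deriv (by ring)
  have hd1' : ∀ s, 0 < s → HasDerivAt (fun s => -(x / 2) * S (x * s))
      (-(x ^ 2 / 2) * κ2 (x * s)) s := by
    intro s hs
    exact ((chain dS hx0 s hs).const_mul _).congr_deriv (by ring)
  have hg1 : ∃ (C : ℝ) (N : ℕ), ∀ s, 0 ≤ s → |c (x * s)| ≤ C * (1 + s) ^ N :=
    ⟨1, 0, fun s _ => by simpa using Real.abs_cos_le_one _⟩
  have hκ2b : ∀ v, |κ2 v| ≤ 1 / 6 := fun v => (hKb _).1
  have hκ3b : ∀ v, |κ3 v| ≤ 1 / 60 := fun v => (hKb _).2.1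
  have hSb : ∀ v, |S v| ≤ 1 := fun v => Real.abs_sinc_le_one _
  have gsq : ∀ C : ℝ, 0 ≤ C → ∃ (C' : ℝ) (N : ℕ), ∀ s, 0 ≤ s → |C * s ^ 2| ≤ C' * (1 + s) ^ N := by
    intro C hC
    refine ⟨C, 2, fun s hs => ?_⟩
    rw [abs_of_nonneg (by positivity)]
    exact mul_le_mul_of_nonneg_left (pow_le_pow_left₀ hs (by linarith) 2) hC
  have gsq3 : ∀ C : ℝ, 0 ≤ C → ∃ (C' : ℝ) (N : ℕ), ∀ s, 0 ≤ s → |C * s ^ 3| ≤ C' * (1 + s) ^ N := by
    intro C hC
    refine ⟨C, 3, fun s hs => ?_⟩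
    rw [abs_of_nonneg (by positivity)]
    exact mul_le_mul_of_nonneg_left (pow_le_pow_left₀ hs (by linarith) 3) hC
  have g32 : ∀ C : ℝ, 0 ≤ C → ∃ (C' : ℝ) (N : ℕ), ∀ s, 0 ≤ s → |C * (s * √s)| ≤ C' * (1 + s) ^ N := by
    intro C hC
    refine ⟨C, 2, fun s hs => ?_⟩
    rw [abs_of_nonneg (by positivity)]
    apply mul_le_mul_of_nonneg_left _ hC
    have := sqrt_le_one_add s hs
    have h3 : s * √s ≤ (1 + s) * (1 + s) :=
      mul_le_mul (by linarith) this (Real.sqrt_nonneg s) (by linarith)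
    linarith [h3]
  have dsq : ∀ C s : ℝ, HasDerivAt (fun s => C * s ^ 2) (2 * C * s) s := by
    intro C s
    refine (((hasDerivAt_id s).pow 2).const_mul C).congr_deriv ?_
    simp only [id]
    ring
  have dli : ∀ C s : ℝ, HasDerivAt (fun s => C * s) C s := by
    intro C s
    simpa using (hasDerivAt_id s).const_mul C
  have dcu : ∀ C s : ℝ, HasDerivAt (fun s => C * s ^ 3) (3 * C * s ^ 2) s := by
    intro C s
    refine (((hasDerivAt_id s).pow 3).const_mul C).congr_deriv ?_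
    simp only [id]
    ring
  have m2 : ∀ C : ℝ, ∫ y, C * (y ^ 2) ^ 2 ∂(nu θ) = C * mo θ 2 := by
    intro C
    rw [integral_const_mul, ← hmo 2]
    simp [← pow_mul]
  have m2' : ∀ C : ℝ, ∫ y, C * (y ^ 2) ^ 2 ∂(nu θ') = C * mo θ' 2 := by
    intro C
    rw [integral_const_mul, ← hmo' 2]
    simp [← pow_mul]
  have n3 : ∀ C : ℝ, ∫ y, C * (y ^ 2) ^ 3 ∂(nu θ) = C * mo θ 3 := by
    intro C
    rw [integral_const_mul, ← hmo 3]
    simp [← pow_mul]
  have n3' : ∀ C : ℝ, ∫ y, C * (y ^ 2) ^ 3 ∂(nu θ') = C * mo θ' 3 := by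
    intro C
    rw [integral_const_mul, ← hmo' 3]
    simp [← pow_mul]
  have k3m : ∀ C : ℝ, ∫ y, C * ((y ^ 2) * √(y ^ 2)) ∂(nu θ) = C * m3 θ := by
    intro C
    rw [integral_const_mul, j4, hm3]
  have k3m' : ∀ C : ℝ, ∫ y, C * ((y ^ 2) * √(y ^ 2)) ∂(nu θ') = C * m3 θ' := by
    intro C
    rw [integral_const_mul, j4', hm3']
  have sx : 0 < √x := Real.sqrt_pos.2 hx0
  have wb : ∀ s, 0 < s → √x * √s * |κ2 (x * s)| ≤ 0.219 := by
    intro s hs
    rw [← Real.sqrt_mul hx]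
    exact B2 hK2 hKf (√(x * s)) (Real.sqrt_pos.2 (mul_pos hx0 hs))
  have wS : ∀ s, 0 < s → √x * √s * |S (x * s)| ≤ 1 := by
    intro s hs
    rw [Se _ (mul_pos hx0 hs), Real.sqrt_mul hx, abs_div,
      abs_of_pos (mul_pos sx (Real.sqrt_pos.2 hs))]
    have : √x * √s ≠ 0 := (mul_pos sx (Real.sqrt_pos.2 hs)).ne'
    rw [mul_div_cancel₀ _ this]
    exact Real.abs_sin_le_one _
  have xx : x = √x * √x := (Real.mul_self_sqrt hx).symm
  have I1 := cmp hi hi' hCX (fun s => c (x * s)) (fun s => -(x / 2) * S (x * s))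
    (fun s => -(x ^ 2 / 2) * κ2 (x * s)) (fun s => x ^ 2 / 24 * s ^ 2)
    (fun s => 2 * (x ^ 2 / 24) * s) (fun _ => 2 * (x ^ 2 / 24)) (cc.comp cx).continuousOn
    (by fun_prop) hd1 hd1' (fun s _ => dsq _ s) (fun s _ => dli _ s) ?_ hg1
    (gsq _ (by positivity))
  rotate_left
  · intro s hs
    rw [abs_mul, abs_neg, abs_of_nonneg (show (0:ℝ) ≤ x ^ 2 / 2 by positivity)]
    nlinarith [mul_le_mul_of_nonneg_left (hκ2b (x * s)) (show (0:ℝ) ≤ x ^ 2 / 2 by positivity)]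
  have I2 := cmp hi hi' hCX (fun s => c (x * s)) (fun s => -(x / 2) * S (x * s))
    (fun s => -(x ^ 2 / 2) * κ2 (x * s)) (fun s => 0.146 * (x * √x) * (s * √s))
    (fun s => 0.146 * (x * √x) * (3 / 2 * √s)) (fun s => 0.146 * (x * √x) * (3 / (4 * √s)))
    (cc.comp cx).continuousOn
    (by fun_prop) hd1 hd1' (fun s hs => (d32 _ s hs).1) (fun s hs => (d32 _ s hs).2) ?_ hg1
    (g32 _ (by positivity))
  rotate_left
  · intro s hs
    have ws : 0 < √s := Real.sqrt_pos.2 hs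
    rw [abs_mul, abs_neg, abs_of_nonneg (show (0:ℝ) ≤ x ^ 2 / 2 by positivity), ← mul_div_assoc,
      le_div_iff₀ (by positivity)]
    have h1 := mul_le_mul_of_nonneg_left (wb s hs) (show 0 ≤ 2 * (x * √x) by positivity)
    calc x ^ 2 / 2 * |κ2 (x * s)| * (4 * √s) = 2 * (x * x) * √s * |κ2 (x * s)| := by ring
      _ = 2 * (x * (√x * √x)) * √s * |κ2 (x * s)| := by rw [← xx]
      _ = 2 * (x * √x) * (√x * √s * |κ2 (x * s)|) := by ring
      _ ≤ 2 * (x * √x) * 0.219 := h1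
      _ = 0.146 * (x * √x) * 3 := by ring
  -- items 3 and 4
  have hd3 : ∀ s, 0 < s → HasDerivAt (fun s => s * S (x * s)) (1 / 2 * (c (x * s) + S (x * s))) s := by
    intro s hs
    refine ((hasDerivAt_id s).mul (chain dS hx0 s hs)).congr_deriv ?_
    simp only [id]
    linarith [r1 (x * s) (mul_pos hx0 hs)]
  have hd3' : ∀ s, 0 < s → HasDerivAt (fun s => 1 / 2 * (c (x * s) + S (x * s)))
      (x / 2 * (κ2 (x * s) - S (x * s) / 2)) s := by
    intro s hs
    exact (((chain dc hx0 s hs).add (chain dS hx0 s hs)).const_mul _).congr_deriv (by ring)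
  have hg3 : ∃ (C : ℝ) (N : ℕ), ∀ s, 0 ≤ s → |s * S (x * s)| ≤ C * (1 + s) ^ N := by
    refine ⟨1, 1, fun s hs => ?_⟩
    rw [abs_mul, abs_of_nonneg hs]
    nlinarith [mul_le_mul_of_nonneg_left (hSb (x * s)) hs]
  have hc3 : ContinuousOn (fun s => s * S (x * s)) (Ici 0) :=
    (continuous_id.mul (cS.comp cx)).continuousOn
  have I3 := cmp hi hi' hCX (fun s => s * S (x * s)) (fun s => 1 / 2 * (c (x * s) + S (x * s)))
    (fun s => x / 2 * (κ2 (x * s) - S (x * s) / 2)) (fun s => x / 6 * s ^ 2)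
    (fun s => 2 * (x / 6) * s) (fun _ => 2 * (x / 6)) hc3
    (by fun_prop) hd3 hd3' (fun s _ => dsq _ s) (fun s _ => dli _ s) ?_ hg3
    (gsq _ (by positivity))
  rotate_left
  · intro s hs
    rw [abs_mul, abs_of_nonneg (show (0:ℝ) ≤ x / 2 by positivity)]
    have h1 : |κ2 (x * s) - S (x * s) / 2| ≤ 1 / 6 + 1 / 2 := by
      have h2 := abs_le.1 (hκ2b (x * s))
      have h3 := abs_le.1 (hSb (x * s))
      rw [abs_le]
      constructor <;> linarith [h2.1, h2.2, h3.1, h3.2]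
    nlinarith [mul_le_mul_of_nonneg_left h1 (show (0:ℝ) ≤ x / 2 by positivity)]
  have I4 := cmp hi hi' hCX (fun s => s * S (x * s)) (fun s => 1 / 2 * (c (x * s) + S (x * s)))
    (fun s => x / 2 * (κ2 (x * s) - S (x * s) / 2)) (fun s => 0.48 * √x * (s * √s))
    (fun s => 0.48 * √x * (3 / 2 * √s)) (fun s => 0.48 * √x * (3 / (4 * √s))) hc3
    (by fun_prop) hd3 hd3' (fun s hs => (d32 _ s hs).1) (fun s hs => (d32 _ s hs).2) ?_ hg3
    (g32 _ (by positivity))
  rotate_left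
  · intro s hs
    have ws : 0 < √s := Real.sqrt_pos.2 hs
    rw [abs_mul, abs_of_nonneg (show (0:ℝ) ≤ x / 2 by positivity), ← mul_div_assoc,
      le_div_iff₀ (by positivity)]
    have h1 : √x * √s * |κ2 (x * s) - S (x * s) / 2| ≤ 0.719 := by
      have h2 : |κ2 (x * s) - S (x * s) / 2| ≤ |κ2 (x * s)| + |S (x * s)| / 2 := by
        refine (abs_sub _ _).trans ?_
        rw [abs_div, abs_two]
      have h3 := mul_le_mul_of_nonneg_left h2 (mul_pos sx ws).le
      nlinarith [wb s hs, wS s hs]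
    have h4 := mul_le_mul_of_nonneg_left h1 (show 0 ≤ 2 * √x by positivity)
    calc x / 2 * |κ2 (x * s) - S (x * s) / 2| * (4 * √s) =
          2 * x * √s * |κ2 (x * s) - S (x * s) / 2| := by ring
      _ = 2 * (√x * √x) * √s * |κ2 (x * s) - S (x * s) / 2| := by rw [← xx]
      _ = 2 * √x * (√x * √s * |κ2 (x * s) - S (x * s) / 2|) := by ring
      _ ≤ 2 * √x * 0.719 := h4
      _ ≤ 0.48 * √x * 3 := by nlinarith
  -- item 5
  have hd5 : ∀ s, 0 < s → HasDerivAt (fun s => s ^ 2 * κ2 (x * s))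
      (s * (κ2 (x * s) / 2 - S (x * s) / 4)) s := by
    intro s hs
    refine (((hasDerivAt_id s).pow 2).mul (chain dκ2 hx0 s hs)).congr_deriv ?_
    simp only [id]
    have := r2 (x * s) (mul_pos hx0 hs)
    have h1 : s ^ 2 * (κ3 (x * s) * x) = s * (-(S (x * s)) / 4 - 3 / 2 * κ2 (x * s)) := by
      rw [← this]; ring
    simp only [Pi.pow_apply, id]
    rw [h1]
    ring
  have hd5' : ∀ s, 0 < s → HasDerivAt (fun s => s * (κ2 (x * s) / 2 - S (x * s) / 4))
      (-(1 / 8) * ((2 * S (x * s) + 2 * κ2 (x * s)) + c (x * s))) s := by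
    intro s hs
    refine ((hasDerivAt_id s).mul (((chain dκ2 hx0 s hs).div_const 2).sub
      ((chain dS hx0 s hs).div_const 4))).congr_deriv ?_
    have e1 := r1 (x * s) (mul_pos hx0 hs)
    have e2 := r2 (x * s) (mul_pos hx0 hs)
    simp only [Pi.sub_apply, id]
    linear_combination (1 / 2) * e2 - (1 / 8) * e1
  have hg5 : ∃ (C : ℝ) (N : ℕ), ∀ s, 0 ≤ s → |s ^ 2 * κ2 (x * s)| ≤ C * (1 + s) ^ N := by
    refine ⟨1, 2, fun s hs => ?_⟩
    rw [abs_mul, abs_of_nonneg (show (0:ℝ) ≤ s ^ 2 by positivity)]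
    nlinarith [mul_le_mul_of_nonneg_left (hκ2b (x * s)) (sq_nonneg s)]
  have I5 := cmp hi hi' hCX (fun s => s ^ 2 * κ2 (x * s))
    (fun s => s * (κ2 (x * s) / 2 - S (x * s) / 4))
    (fun s => -(1 / 8) * ((2 * S (x * s) + 2 * κ2 (x * s)) + c (x * s))) (fun s => 1 / 6 * s ^ 2)
    (fun s => 2 * (1 / 6) * s) (fun _ => 2 * (1 / 6))
    ((continuous_id.pow 2).mul (cκ2.comp cx)).continuousOn
    (by fun_prop) hd5 hd5' (fun s _ => dsq _ s) (fun s _ => dli _ s) ?_ hg5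
    (gsq _ (by positivity))
  rotate_left
  · intro s hs
    have h1 : |2 * S (x * s) + 2 * κ2 (x * s)| ≤ 5 / 3 := by
      rw [Se _ (mul_pos hx0 hs), κ2e _ (mul_pos hx0 hs)]
      exact B5 _ (Real.sqrt_pos.2 (mul_pos hx0 hs))
    have h2 : |c (x * s)| ≤ 1 := Real.abs_cos_le_one _
    rw [abs_mul, abs_neg, abs_of_nonneg (show (0:ℝ) ≤ 1 / 8 by norm_num)]
    linarith [(abs_add_le (2 * S (x * s) + 2 * κ2 (x * s)) (c (x * s)))]
  -- item 6
  have hd6 : ∀ s, 0 < s → HasDerivAt (fun s => s ^ 3 * κ3 (x * s))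
      (s ^ 2 * (κ3 (x * s) / 2 - κ2 (x * s) / 4)) s := by
    intro s hs
    refine (((hasDerivAt_id s).pow 3).mul (chain dκ3 hx0 s hs)).congr_deriv ?_
    have := r3 (x * s) (mul_pos hx0 hs)
    have h1 : s ^ 3 * (κ4 (x * s) * x) = s ^ 2 * (-(κ2 (x * s)) / 4 - 5 / 2 * κ3 (x * s)) := by
      rw [← this]; ring
    simp only [Pi.pow_apply, id]
    rw [h1]
    ring
  have hd6' : ∀ s, 0 < s → HasDerivAt (fun s => s ^ 2 * (κ3 (x * s) / 2 - κ2 (x * s) / 4))
      (s * (S (x * s) / 16 - κ2 (x * s) / 4 - κ3 (x * s) / 4)) s := by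
    intro s hs
    refine (((hasDerivAt_id s).pow 2).mul (((chain dκ3 hx0 s hs).div_const 2).sub
      ((chain dκ2 hx0 s hs).div_const 4))).congr_deriv ?_
    have e2 := r2 (x * s) (mul_pos hx0 hs)
    have e3 := r3 (x * s) (mul_pos hx0 hs)
    simp only [Pi.pow_apply, Pi.sub_apply, id]
    have h1 : s ^ 2 * (κ4 (x * s) * x / 2 - κ3 (x * s) * x / 4) =
        s * ((-(κ2 (x * s)) / 4 - 5 / 2 * κ3 (x * s)) / 2 -
          (-(S (x * s)) / 4 - 3 / 2 * κ2 (x * s)) / 4) := by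
      rw [← e2, ← e3]; ring
    rw [h1]
    ring
  have hg6 : ∃ (C : ℝ) (N : ℕ), ∀ s, 0 ≤ s → |s ^ 3 * κ3 (x * s)| ≤ C * (1 + s) ^ N := by
    refine ⟨1, 3, fun s hs => ?_⟩
    rw [abs_mul, abs_of_nonneg (show (0:ℝ) ≤ s ^ 3 by positivity)]
    have h1 := mul_le_mul_of_nonneg_left (hκ3b (x * s)) (show (0:ℝ) ≤ s ^ 3 by positivity)
    have h2 : s ^ 3 ≤ (1 + s) ^ 3 := pow_le_pow_left₀ hs (by linarith) 3
    have h3 : 0 ≤ s ^ 3 := by positivity
    linarith
  have I6 := cmp hi hi' hCX (fun s => s ^ 3 * κ3 (x * s))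
    (fun s => s ^ 2 * (κ3 (x * s) / 2 - κ2 (x * s) / 4))
    (fun s => s * (S (x * s) / 16 - κ2 (x * s) / 4 - κ3 (x * s) / 4)) (fun s => 1 / 60 * s ^ 3)
    (fun s => 3 * (1 / 60) * s ^ 2) (fun s => 2 * (3 * (1 / 60)) * s)
    ((continuous_id.pow 3).mul (cκ3.comp cx)).continuousOn
    (by fun_prop) hd6 hd6' (fun s _ => dcu _ s) (fun s _ => dsq _ s) ?_ hg6
    (gsq3 _ (by positivity))
  rotate_left
  · intro s hs
    have hv := mul_pos hx0 hs
    have hw := Real.sqrt_pos.2 hv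
    have h1 : κ3 (x * s) = -(Real.sin (√(x * s))) / (4 * √(x * s) ^ 3) -
        3 / 4 * Real.cos (√(x * s)) / √(x * s) ^ 4 + 3 / 4 * Real.sin (√(x * s)) / √(x * s) ^ 5 := by
      have e2 := r2 (x * s) hv
      rw [Se _ hv, κ2e _ hv] at e2
      have e3 : x * s = √(x * s) ^ 2 := (Real.sq_sqrt hv.le).symm
      have e4 : √(x * s) ^ 2 * κ3 (x * s) = -(Real.sin (√(x * s)) / √(x * s)) / 4 -
          3 / 2 * ((√(x * s) * Real.cos (√(x * s)) - Real.sin (√(x * s))) / (2 * √(x * s) ^ 3)) := by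
        rw [← e2, ← e3]
      generalize κ3 (x * s) = k at e4 ⊢
      generalize √(x * s) = w at e4 ⊢ hw
      have hk : k = (-(Real.sin w / w) / 4 -
          3 / 2 * ((w * Real.cos w - Real.sin w) / (2 * w ^ 3))) / w ^ 2 := by
        rw [← e4]; field_simp
      rw [hk]
      field_simp
      ring
    have h2 : |S (x * s) / 16 - κ2 (x * s) / 4 - κ3 (x * s) / 4| ≤ 1 / 10 := by
      rw [h1, Se _ hv, κ2e _ hv]
      exact B6 _ hw
    rw [abs_mul, abs_of_pos hs]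
    nlinarith [mul_le_mul_of_nonneg_left h2 hs.le]
  -- conclusion
  simp only [m2, m2', n3, n3', k3m, k3m'] at I1 I2 I3 I4 I5 I6
  simp only [hc, hS, hκ2, hκ3] at I1 I2 I3 I4 I5 I6
  rw [j0, j0', ← f0e, ← f0e'] at I1 I2
  rw [j1, j1', ← f1e, ← f1e'] at I3 I4
  rw [j2, j2', ← f2e, ← f2e'] at I5
  rw [j3, j3', ← f3e, ← f3e'] at I6
  refine ⟨?_, ?_, ?_, ?_, ?_, ?_⟩
  · linarith [I1]
  · linarith [I2]
  · linarith [I3]
  · linarith [I4]
  · linarith [I5]
  · linarith [I6]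

end Pool.Agent.Helper9.PT
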